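import Pool.Agent.H30.HQ.Targets

/-! Rows QTA and QVA: the map from complex to quaternionic vectors. -/

set_option autoImplicit false

open Topology Filter
open scoped Quaternion
open Pool.Agent.H59 Pool.Agent.H48.FR Pool.Agent.H58.FL Pool.Agent.H58.JU
open Pool.Agent.H30.HQ

namespace Pool.Agent.H68.HQN

/-- the linear map `(a, b) ↦ a + b j` -/
noncomputable def qtL : ℂ × ℂ →ₗ[ℝ] ℍ[ℝ] where
  toFun z := qt z.1 z.2
  map_add' z w := by
    apply Quaternion.ext <;> simp [qt]
  map_smul' r z := by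
    apply Quaternion.ext <;> simp [qt]

theorem pf_QTA : T_QTA := by
  refine ⟨?_, ?_, ?_, ?_, ?_, ?_, ?_, ?_⟩
  · intro a b
    rw [sq ‖qt a b‖, ← Quaternion.normSq_eq_norm_mul_self, Quaternion.normSq_def',
      Complex.sq_norm, Complex.sq_norm, Complex.normSq_apply, Complex.normSq_apply]
    simp only [qt]
    ring
  · intro u a b
    apply Quaternion.ext <;> simp [qt]
  · intro u a b
    apply Quaternion.ext <;> simp [qt] <;> ring
  · intro a b
    rfl
  · intro u u'
    show (qt u 0 * star (qt u' 0)).re = (u * star u').re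
    rw [Quaternion.re_mul]
    simp [qt]
  · intro u u'
    show (qt 0 (star u) * star (qt 0 (star u'))).re = (u * star u').re
    rw [Quaternion.re_mul]
    simp [qt]
  · intro u u'
    show (qt u 0 * star (qt 0 (star u'))).re = 0
    rw [Quaternion.re_mul]
    simp [qt]
  · exact qtL.continuous_of_finiteDimensional

theorem cont_xk {m : ℕ} (k : ℕ) : Continuous fun x : Fin m → ℂ => xk x k := by
  unfold xk
  split_ifs with h
  · exact continuous_apply _
  · exact continuous_const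

theorem sum_pairs (f : ℕ → ℝ) (m : ℕ) :
    ∑ i ∈ Finset.range m, (f (2 * i) + f (2 * i + 1)) = ∑ k ∈ Finset.range (2 * m), f k := by
  induction m with
  | zero => simp
  | succ m ih =>
    rw [Finset.sum_range_succ, ih, show 2 * (m + 1) = 2 * m + 1 + 1 by ring,
      Finset.sum_range_succ _ (2 * m + 1), Finset.sum_range_succ _ (2 * m)]
    ring

theorem xk_smul {m : ℕ} (a : ℂ) (x : Fin m → ℂ) (k : ℕ) : xk (a • x) k = a * xk x k := by
  unfold xk
  split_ifs with h
  · rfl
  · rw [mul_zero]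

theorem pf_QVA (hQTA : T_QTA) : T_QVA := by
  intro n
  obtain ⟨h1, h2, -, -, -, -, -, h8⟩ := hQTA
  have hn : ∀ x : Fin (2 * n + 1) → ℂ, nrm (qv x) = nrm x := by
    intro x
    unfold nrm
    congr 1
    have e1 : ∀ i : Fin (n + 1), ‖qv x i‖ ^ 2 =
        ‖xk x (2 * (i : ℕ))‖ ^ 2 + ‖xk x (2 * (i : ℕ) + 1)‖ ^ 2 := fun i => h1 _ _
    have e2 : ∀ k : Fin (2 * n + 1), ‖x k‖ ^ 2 = ‖xk x (k : ℕ)‖ ^ 2 := by
      intro k
      unfold xk
      rw [dif_pos k.2]
    rw [Finset.sum_congr rfl fun i _ => e1 i, Finset.sum_congr rfl fun k _ => e2 k,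
      Fin.sum_univ_eq_sum_range (fun i => ‖xk x (2 * i)‖ ^ 2 + ‖xk x (2 * i + 1)‖ ^ 2) (n + 1),
      Fin.sum_univ_eq_sum_range (fun k => ‖xk x k‖ ^ 2) (2 * n + 1),
      sum_pairs (fun k => ‖xk x k‖ ^ 2) (n + 1), show 2 * (n + 1) = 2 * n + 1 + 1 by ring,
      Finset.sum_range_succ]
    have e3 : xk x (2 * n + 1) = 0 := by
      unfold xk
      rw [dif_neg (lt_irrefl _)]
    rw [e3, norm_zero]
    ring
  refine ⟨?_, hn, ?_, ?_⟩
  · refine continuous_pi fun i => ?_
    exact h8.comp ((cont_xk _).prodMk (cont_xk _))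
  · intro a x
    funext i
    show qt (xk (a • x) (2 * (i : ℕ))) (xk (a • x) (2 * (i : ℕ) + 1)) =
      qt a 0 * qt (xk x (2 * (i : ℕ))) (xk x (2 * (i : ℕ) + 1))
    rw [h2, xk_smul, xk_smul]
  · intro x hx h0
    apply hx
    rw [← nrm_eq_zero_iff, ← hn, h0]
    exact (nrm_eq_zero_iff _).2 rfl

end Pool.Agent.H68.HQN
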